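import Pool.Agent.Q73.CM.Rev

/-!
# Mergelyan's theorem for chordal-metric polynomial approximation

For every compact `L ⊆ ℂ` with connected complement, the `χ`-uniform limits on `L` of polynomials
are exactly the functions of the class `M(L)`: the continuous maps `f : L → ℂ ∪ {∞}` such that on
each component `V` of the interior of `L` either `f = ∞` or `f` is finite and holomorphic.

The proof: the set `S = f⁻¹(∞)` has connected complement (otherwise `1 / f`, multiplied by a
polynomial, would be holomorphic in a hole of `S` and vanish on its boundary).  So `S` has a compact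
neighbourhood `P` with connected complement on which `f ≠ 0`.  On `L ∩ P`, whose complement is
connected, `1 / f` is continuous, holomorphic in the interior, and zero-free or identically zero on
each component of the interior, so it is a uniform limit of polynomials `q` without zeros on `L ∩ P`
(zero-free Mergelyan theorem of the starting files).  With a cutoff function `τ` which is `1` near
`S` and supported in `P`, the function `τ / q + (1 - τ) f - u`, where `u` is the (small) Cauchy
transform of the extended function `(1 / q - f) ∂̄τ`, is finite, continuous on `L`, holomorphic in the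
interior, and `χ`-close to `f`; Mergelyan's theorem finishes the proof.
-/

set_option autoImplicit false

open Filter Topology Set

namespace Pool.Agent.Results.MP_215127_an.ChordalMergelyan

/-- the chordal metric `χ` on the Riemann sphere `ℂ ∪ {∞} = OnePoint ℂ` -/
noncomputable def chord : OnePoint ℂ → OnePoint ℂ → ℝ
  | OnePoint.infty, OnePoint.infty => 0
  | OnePoint.infty, OnePoint.some b => 1 / √(1 + ‖b‖ ^ 2)
  | OnePoint.some a, OnePoint.infty => 1 / √(1 + ‖a‖ ^ 2)
  | OnePoint.some a, OnePoint.some b => ‖a - b‖ / (√(1 + ‖a‖ ^ 2) * √(1 + ‖b‖ ^ 2))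

/-- `f` is a `χ`-uniform limit on `L` of a sequence of polynomials -/
def IsLimit (L : Set ℂ) (f : ℂ → OnePoint ℂ) : Prop :=
  ∃ p : ℕ → Polynomial ℂ, ∀ ε : ℝ, 0 < ε → ∃ N : ℕ, ∀ n ≥ N, ∀ z ∈ L,
    chord (((p n).eval z : ℂ) : OnePoint ℂ) (f z) < ε

/-- the class `M(L)` (only the values of `f` on `L` matter) -/
structure InM (L : Set ℂ) (f : ℂ → OnePoint ℂ) : Prop where
  cont : ContinuousOn f L
  comp : ∀ z ∈ interior L,
    (∀ w ∈ connectedComponentIn (interior L) z, f w = OnePoint.infty) ∨
    (∃ g : ℂ → ℂ, DifferentiableOn ℂ g (connectedComponentIn (interior L) z) ∧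
      ∀ w ∈ connectedComponentIn (interior L) z, f w = (g w : OnePoint ℂ))

lemma chord_eq (x y : OnePoint ℂ) : chord x y = Q73.CM.chord x y := by
  induction x using OnePoint.rec with
  | infty =>
    induction y using OnePoint.rec with
    | infty => rfl
    | coe b => rfl
  | coe a =>
    induction y using OnePoint.rec with
    | infty => rfl
    | coe b => rfl

/-- **Mergelyan's theorem for the chordal metric.** For every compact `L` with connected complement
the set of `χ`-uniform limits on `L` of polynomials equals `M(L)`. -/
theorem result : ∀ L : Set ℂ, IsCompact L → IsConnected Lᶜ →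
    ∀ f : ℂ → OnePoint ℂ, IsLimit L f ↔ InM L f := by
  intro L hL hLc f
  have h := Q73.CM.main hL hLc f
  constructor
  · rintro ⟨p, hp⟩
    obtain ⟨h1, h2⟩ := h.1 ⟨p, fun ε hε => by
      obtain ⟨N, hN⟩ := hp ε hε
      exact ⟨N, fun n hn z hz => by rw [← chord_eq]; exact hN n hn z hz⟩⟩
    exact ⟨h1, h2⟩
  · rintro ⟨h1, h2⟩
    obtain ⟨p, hp⟩ := h.2 ⟨h1, h2⟩
    refine ⟨p, fun ε hε => ?_⟩
    obtain ⟨N, hN⟩ := hp ε hε
    exact ⟨N, fun n hn z hz => by rw [chord_eq]; exact hN n hn z hz⟩

end Pool.Agent.Results.MP_215127_an.ChordalMergelyan
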